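import Pool.Agent.X180.CD.Low
import Pool.Agent.X333.DC.DomH

/-!
# Rational curves on surfaces which correspond to nested sums of high powers

Let `V = {F = 0}` be a projective variety in `ℙⁿ` whose equations are nested sums of powers of linear
forms, or nested sums of powers of monomials: sums of at most `s` terms `c g ^ e`, where the `g` are
linear forms (monomials) or again such sums, with at most `h + 1` levels, and all exponents are at
least `N ≥ 8 ρ r (n + 1) (h + 1) (2 s + 1) ^ 5` (`HighTowers`). For instance, `V` is the Kummer cover
`S (x_0 ^ e, ..., x_n ^ e) = 0` of any surface `S` (whose equations have at most `s` monomials), `h = 0`,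
`e ≥ N`; for large `e` and `S` in general position this is a smooth surface which, for hypersurfaces in
`ℙ³`, satisfies `K ² < c_2`, so that Bogomolov's theorem does not apply.

Let `X` be any projective surface, in any embedding in `ℙ^(c+2)`, such that there is a surface `X'`
with generically finite maps `X' ⇢ X`, of degree at most `r`, and `X' ⇢ Y`, of any degree, where
`Y ⊆ V` is a closed surface which is not covered by rational curves in `V`, or is an irreducible
component of `V` which is not birationally ruled; or let `Y` be an irreducible component of `V` which
dominates `X`, with degree at most `r`, where `X` is not uniruled. We show that **there are only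
finitely many rational curves in `X`**, and also only finitely many elliptic curves, and only finitely
many curves whose normalization is a covering of degree at most `ρ` of a rational or elliptic curve (for
instance, curves of gonality at most `ρ`); and there is a constant `M` with `deg C ≤ M` and
`K_X · C ≤ M` for all these curves `C`. So the answer to the question (and Lang's conjecture on rational
and elliptic curves) is positive for all such surfaces.

`X` is given by its function field `L` and the homogeneous coordinates `x` of its generic point
(`coords k x = ⊤`), and the curve `C` in `X` by its function field `E` and the coordinates `z` of its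
generic point (`OnVar k x z`: all forms which vanish at `x` vanish at `z`; `coords k z = ⊤`); the curve is
determined by the forms which vanish at `z`, and `pht k z` is its degree. The canonical degree of the
curves in a smooth surface is defined by means of the Gauss map `γ`, with `K_X = γ^* O(1) - 3 H`
(`IsCanDegree`, `Pool/Agent/X180/CD/Defs.lean`); it exists and is unique (`exists_can`, `can_unique`,
`Pool/Agent/X180/CD/Exi.lean`). Nothing is assumed about the singularities of `V`, `Y` and `X`.

Proof: outside a proper closed subset `H = 0` of `X` the degree of a curve is at most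
`A max (2 g - 2, 0)` for the genus `g` of the covered curve (`Pool.Agent.X333.DC.dom_allH`), so the curves
in question are in `X ∩ {H = 0}`. Their equations (in affine charts) are minimal primes of one ideal
(`Pool.Agent.X180.CD.curve_min`), so they are finite in number.
-/

set_option autoImplicit false

open FF Pool.Agent.W602.GT Pool.Agent.TH466.QG Pool.Agent.TH710.ND Pool.Agent.X180.CD
open Pool.Agent.Y216 (OnVar)
open Pool.Agent.W603.LV (canDeg)
open Pool.Agent.W603.PV (pht)
open Pool.Agent.W619.PQ (IsUniruled)

namespace Pool.Agent.Results.MP_f8080c_ag.FinitelyManyRationalCurves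

/-- The smooth projective curve with function field `E` is a covering of degree at most `ρ` of a curve
of genus at most one (for instance it is itself a rational or an elliptic curve). -/
def IsLow (k : Type) [Field k] (ρ : ℕ) (E : Type) [Field E] [Algebra k E] : Prop :=
  ∃ (K : Type) (_ : Field K) (_ : Algebra k K) (_ : Algebra K E) (_ : IsScalarTower k K E)
    (_ : FiniteDimensional K E) (_ : IsFF k K), Module.finrank K E ≤ ρ ∧ canDeg k K ≤ 0

/-- Let `X` be the surface in projective space with generic point `x`. There are only finitely many
curves `C` in `X` whose normalization is as in `IsLow` (`C` is given by the set of the forms which vanish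
on it), and their degrees and canonical degrees are bounded. -/
def FinitelyMany (k : Type) [Field k] (ρ : ℕ) {c : ℕ} {L : Type} [Field L] [Algebra k L]
    (x : Fin (c + 2 + 1) → L) : Prop :=
  {S : Set (MvPolynomial (Fin (c + 2 + 1)) k) | ∃ (E : Type) (_ : Field E) (_ : Algebra k E)
    (_ : IsFF k E) (z : Fin (c + 2 + 1) → E), IsLow k ρ E ∧ OnVar k x z ∧ coords k z = ⊤ ∧
      S = {G | IsForm G ∧ val z G = 0}}.Finite ∧
  ∃ M : ℕ, ∀ (E : Type) [Field E] [Algebra k E] [IsFF k E] (z : Fin (c + 2 + 1) → E),
    IsLow k ρ E → OnVar k x z → coords k z = ⊤ →
      pht k z ≤ M ∧ ∀ κ, IsCanDegree k x z κ → κ ≤ M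

theorem of_cover {k : Type} [Field k] [IsAlgClosed k] [CharZero k] {c ρ : ℕ} {L : Type} [Field L]
    [Algebra k L] {x : Fin (c + 2 + 1) → L} (hgen : coords k x = ⊤)
    (hdim : Algebra.trdeg k L = (2 : ℕ)) (h : Pool.Agent.Y221.PB.CoverBound k ρ x) :
    FinitelyMany k ρ x := by
  obtain ⟨h1, B, hB⟩ := low_curves hgen hdim h
  obtain ⟨D, hD⟩ := can_bound (k := k) x
  refine ⟨h1, (D + 1) * B, fun E _ _ _ z hlow hz hgz => ?_⟩
  have h2 := hB E z hlow hz hgz
  have hB0 : (0 : ℤ) ≤ B := Nat.cast_nonneg _
  have hD0 : (0 : ℤ) ≤ D := Nat.cast_nonneg _
  have h3 : (D : ℤ) * pht k z ≤ D * B := mul_le_mul_of_nonneg_left h2 hD0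
  have h4 : (0 : ℤ) ≤ D * B := mul_nonneg hD0 hB0
  push_cast
  refine ⟨?_, fun κ hκ => ?_⟩
  · nlinarith
  · have h5 := hD E z κ hz hκ
    nlinarith

/-- **Rational curves.** Let the forms `F` be nested sums of high powers of linear forms or of
monomials, and let `Y` be a closed surface in `{F = 0}`, with function field `K` and generic point `y`.

(1) Let `Y` be not covered by rational curves in `{F = 0}` (there is no rational curve over `K` through
the point `y`), or an irreducible component which is not ruled. Let `X'` be a surface, with function
field `K'`, with generically finite maps to `Y` and to `X`, where the degree of `X'` over `X` is at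
most `r`, and `X` is a surface in projective space with function field `L` and generic point `x`. Then
there are only finitely many rational and elliptic curves in `X`, and only finitely many curves whose
normalization is a covering of degree at most `ρ` of such a curve, and their canonical degrees are
bounded (`FinitelyMany`).

(2) Let `Y` be an irreducible component of `{F = 0}`, which dominates the surface `X` with degree at
most `r`. If `X` is not uniruled, then the same is true. -/
theorem result {k : Type} [Field k] [IsAlgClosed k] [CharZero k] {n : ℕ} {ι : Type} [Finite ι]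
    {F : ι → MvPolynomial (Fin (n + 1)) k} {s N h r ρ : ℕ} (hF : HighTowers s N h F)
    (hρ : 1 ≤ ρ) (hN : 8 * (ρ * r * ((n + 1) * ((h + 1) * (2 * s + 1) ^ 5))) ≤ N)
    {K : Type} [Field K] [Algebra k K] {y : Fin (n + 1) → K} (hy : SubVar F K 2 y) :
    ((¬ RatCurve F y ∨ IsComponent F y ∧ ¬ Ruled k K) →
      ∀ (K' L : Type) [Field K'] [Field L] [Algebra k K'] [Algebra k L] [Algebra K K']
        [Algebra L K'] [IsScalarTower k K K'] [IsScalarTower k L K'] [FiniteDimensional K K']
        [FiniteDimensional L K'], Module.finrank L K' ≤ r →
      ∀ (c : ℕ) (x : Fin (c + 2 + 1) → L), x ≠ 0 → coords k x = ⊤ → FinitelyMany k ρ x) ∧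
    (IsComponent F y →
      ∀ (L : Type) [Field L] [Algebra k L] [Algebra L K] [IsScalarTower k L K]
        [FiniteDimensional L K], Module.finrank L K ≤ r → ¬ IsUniruled k L 2 →
      ∀ (c : ℕ) (x : Fin (c + 2 + 1) → L), x ≠ 0 → coords k x = ⊤ → FinitelyMany k ρ x) := by
  constructor
  · intro h0 K' L _ _ _ _ _ _ _ _ _ _ hr c x hx hgen
    have h1 := Pool.Agent.X333.DC.dom_allH (K' := K') hF (by norm_num) hρ hN hy h0 hr hx hgen
    have hdim : Algebra.trdeg k L = (2 : ℕ) := by
      rw [← trdeg_alg (k := k) (E := L) (K := K'), trdeg_alg (k := k) (E := K) (K := K'), hy.dim]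
    exact of_cover hgen hdim h1.2.1
  · intro hc L _ _ _ _ _ hr hu c x hx hgen
    have h1 := Pool.Agent.X333.DC.dom_tfaeH hF (by norm_num) hρ hN hy hc hr hx hgen
    have hdim : Algebra.trdeg k L = (2 : ℕ) := by
      rw [← trdeg_alg (k := k) (E := L) (K := K), hy.dim]
    exact of_cover hgen hdim ((h1.out 5 4).1 hu)

end Pool.Agent.Results.MP_f8080c_ag.FinitelyManyRationalCurves
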