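import Pool.Agent.X180.CD.Low1
import Pool.Agent.Y192.FA.GAll

/-!
# Rational and elliptic curves on covers of arbitrary surfaces

Let `Z ⊆ ℙⁿ` be **any** irreducible complex projective surface which is not contained in a coordinate
hyperplane (its homogeneous prime ideal is `I`), and let `F 1, …, F r` be any forms which do not vanish
on `Z`, with positive exponents `e 1, …, e r`. For `m` divisible by the `e j`, we consider the
irreducible components `Y` of the cover of `Z` with the equations

  `f (t 0 ^ m, …, t n ^ m) = 0`, `f ∈ I`,   `w j ^ e j = F j (t 0 ^ m, …, t n ^ m)`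

(`ZCov`, `ZField`, `Pool/Agent/Y192/KC/ZDefs.lean`). Let `X` be any projective surface birational to `Y`
(for instance a smooth one), in any embedding in `ℙ^(c+2)`. There is a number `m0` which depends only on
`Z`, the `F j` and the `e j`, such that for all `m ≥ m0`: if there is no one-parameter group of diagonal
matrices which acts nontrivially on `ℙⁿ` and preserves `Z` and the essential parts of the branch divisors
(`ZRed`), that is, if `X` is of general type, then `X` contains **only finitely many rational and
elliptic curves** `C`, and their canonical degrees `K_X · C` are bounded. So the answer to the question,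
and Lang's conjecture on the rational and elliptic curves, is positive for these surfaces. There are no
assumptions on the singularities of `Z` and on the position of the `F j` and of the coordinate
hyperplanes. Without the `F j`, and for hypersurfaces `Z` in `ℙ³` in general position, the covers are
smooth, with `K ² < c_2`, so that Bogomolov's theorem does not apply.

`X` is given by its function field `L` and the homogeneous coordinates `x` of its generic point
(`coords ℂ x = ⊤`), and the curve `C` in `X` by its function field `E` and the coordinates `z` of its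
generic point (`OnVar ℂ x z`: all forms which vanish at `x` vanish at `z`; `coords ℂ z = ⊤`); the curve is
determined by the forms which vanish at `z`, `pht ℂ z` is its degree, and `canDeg ℂ E = 2 g - 2` for its
geometric genus `g`. The canonical degree of the curves in a smooth surface is defined by means of the
Gauss map `γ`, with `K_X = γ^* O(1) - 3 H` (`IsCanDegree`, `Pool/Agent/X180/CD/Defs.lean`); it exists and is
unique (`exists_can`, `can_unique`, `Pool/Agent/X180/CD/Exi.lean`).

Proof: outside a proper closed subset `H = 0` of `X` the degree of a curve is at most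
`A max (2 g - 2, 0)` (`Pool.Agent.Y192.FA.mainP_all`), so the rational and elliptic curves are in
`X ∩ {H = 0}`. Their equations (in affine charts) are minimal primes of one ideal
(`Pool.Agent.X180.CD.curve_min`), so they are finite in number.
-/

set_option autoImplicit false

open FF Pool.Agent.W602.GT Pool.Agent.Y192.KC Pool.Agent.X180.CD
open Pool.Agent.Y216 (OnVar)
open Pool.Agent.W603.LV (canDeg)
open Pool.Agent.W603.PV (pht)

namespace Pool.Agent.Results.MP_f8080c_ag.RationalCurvesOnCovers

/-- Let `X` be the surface in projective space with generic point `x`. There are only finitely many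
curves `C` in `X` of geometric genus at most one (`C` is given by the set of the forms which vanish on
it), and their degrees and canonical degrees are bounded. -/
def FinitelyMany {c : ℕ} {L : Type} [Field L] [Algebra ℂ L] (x : Fin (c + 2 + 1) → L) : Prop :=
  {S : Set (MvPolynomial (Fin (c + 2 + 1)) ℂ) | ∃ (E : Type) (_ : Field E) (_ : Algebra ℂ E)
    (_ : IsFF ℂ E) (z : Fin (c + 2 + 1) → E), canDeg ℂ E ≤ 0 ∧ OnVar ℂ x z ∧ coords ℂ z = ⊤ ∧
      S = {G | IsForm G ∧ val z G = 0}}.Finite ∧
  ∃ M : ℕ, ∀ (E : Type) [Field E] [Algebra ℂ E] [IsFF ℂ E] (z : Fin (c + 2 + 1) → E),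
    canDeg ℂ E ≤ 0 → OnVar ℂ x z → coords ℂ z = ⊤ →
      pht ℂ z ≤ M ∧ ∀ κ, IsCanDegree ℂ x z κ → κ ≤ M

theorem of_curve {c : ℕ} {L : Type} [Field L] [Algebra ℂ L] {x : Fin (c + 2 + 1) → L}
    (hgen : coords ℂ x = ⊤) (hdim : Algebra.trdeg ℂ L = (2 : ℕ))
    (h : Pool.Agent.Y216.CurveBound ℂ x) : FinitelyMany x := by
  obtain ⟨h1, B, hB⟩ := low_curves1 hgen hdim h
  obtain ⟨D, hD⟩ := can_bound (k := ℂ) x
  refine ⟨h1, (D + 1) * B, fun E _ _ _ z hlow hz hgz => ?_⟩
  have h2 := hB E z hlow hz hgz
  have hB0 : (0 : ℤ) ≤ B := Nat.cast_nonneg _
  have hD0 : (0 : ℤ) ≤ D := Nat.cast_nonneg _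
  have h3 : (D : ℤ) * pht ℂ z ≤ D * B := mul_le_mul_of_nonneg_left h2 hD0
  have h4 : (0 : ℤ) ≤ D * B := mul_nonneg hD0 hB0
  push_cast
  refine ⟨?_, fun κ hκ => ?_⟩
  · nlinarith
  · have h5 := hD E z κ hz hκ
    nlinarith

/-- **Rational and elliptic curves.** Let `Z` be any irreducible projective surface in `ℙⁿ`, not in a
coordinate hyperplane, with the homogeneous prime ideal `I`, let `F 1, …, F r` be forms which do not
vanish on `Z`, and let `e 1, …, e r` be positive numbers (and `G = 1`). There is a number `m0` with the
following property. Let `m ≥ m0` be divisible by the `e j`, and let `Y` be any irreducible component of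
the projective surface with the equations `f (t 0 ^ m, …, t n ^ m) = 0`, `f ∈ I`, and
`w j ^ e j = F j (t 0 ^ m, …, t n ^ m)`; `L` is the function field of `Y`, and `t`, `w` are the coordinates
of its generic point. Let `X` be any surface in projective space which is birational to `Y`, with generic
point `x`. Then `X` is of general type if and only if there is no one-parameter group of diagonal
matrices which acts nontrivially on `ℙⁿ` and preserves `Z` and the essential parts of the branch divisors
`F j = 0` on `Z`; and then there are only finitely many curves of geometric genus at most one in `X`, and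
their canonical degrees are bounded. -/
theorem result {n r : ℕ} (X : ZCov n r) (hG : X.G = 1) :
    ∃ m0 : ℕ, ∀ m, m0 ≤ m → (∀ j, X.e j ∣ m) →
      ∀ (L : Type) [Field L] [Algebra ℂ L] (t : Fin (n + 1) → L) (w : Fin r → L),
      ZField X m L t w → Algebra.trdeg ℂ L = (2 : ℕ) →
      ∀ (c : ℕ) (x : Fin (c + 2 + 1) → L), x ≠ 0 → coords ℂ x = ⊤ →
      (GeneralType ℂ L 2 ↔ ¬ ZRed X) ∧ (¬ ZRed X → FinitelyMany x) := by
  obtain ⟨m0, hm0⟩ := Pool.Agent.Y192.FA.mainP_all X hG
  refine ⟨m0, fun m hm he L _ _ t w hF htr c x hx hgen => ?_⟩
  have h := hm0 m hm he L t w hF 2 (by norm_num) htr (c + 2) x hx hgen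
  exact ⟨h.out 0 3, fun hr => of_curve hgen htr ((h.out 3 2).1 hr)⟩

end Pool.Agent.Results.MP_f8080c_ag.RationalCurvesOnCovers
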